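import Mathlib
import Pool.Agent.PowAlt.BS

set_option autoImplicit false

/-!
# A finitely presented torsion-free group with the power alternative but not the uniform one
-/

namespace Pool.Agent.Results.MP_0fca91_al.NotUniform

open Pool.Agent.PowAlt (GQ relBS ga gs gc ba bs bc act_of bc_commute bc_not_commute)

/-- The power alternative: for all `g, h` there is `n ≥ 1` such that `g ^ n` and `h ^ n` commute or
the subgroup generated by `g ^ n` and `h ^ n` is free of rank two. -/
def PowerAlternative (G : Type*) [Group G] : Prop :=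
  ∀ g h : G, ∃ n : ℕ, 1 ≤ n ∧
    (Commute (g ^ n) (h ^ n) ∨ Nonempty (Subgroup.closure {g ^ n, h ^ n} ≃* FreeGroup (Fin 2)))

/-- The uniform power alternative: there is `N ≥ 1` such that for all `g, h`, `g ^ N` and `h ^ N`
commute or the subgroup generated by `g ^ N` and `h ^ N` is free of rank two. -/
def UniformPowerAlternative (G : Type*) [Group G] : Prop :=
  ∃ N : ℕ, 1 ≤ N ∧ ∀ g h : G,
    (Commute (g ^ N) (h ^ N) ∨ Nonempty (Subgroup.closure {g ^ N, h ^ N} ≃* FreeGroup (Fin 2)))

/-- the group -/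
abbrev G0 : Type := GQ ({relBS} : Set (FreeGroup (Fin 2)))

/-- the stable letter -/
def st : G0 := SemidirectProduct.inl (FreeGroup.of 1)

/-- the pair of words -/
def pr (j : ℕ) : FreeGroup (Fin 2) × FreeGroup (Fin 2) := (gc j, ga * gc j * ga⁻¹)

/-- the second element -/
def sh (j : ℕ) : G0 := SemidirectProduct.inr (pr j)

theorem mk_gc (j : ℕ) : PresentedGroup.mk {relBS} (gc j) = bc j := by
  unfold gc bc ba bs
  rw [map_mul, map_mul, map_pow, map_pow, map_inv]

theorem act_pr (j n : ℕ) : Pool.Agent.PowAlt.act {relBS} (pr j ^ n) (FreeGroup.of 1) =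
    FreeGroup.of (bc j ^ n * (ba * bc j ^ n * ba⁻¹)⁻¹) := by
  rw [act_of]
  have h1 : (pr j ^ n).1 = gc j ^ n := rfl
  have h2 : (pr j ^ n).2 = (ga * gc j * ga⁻¹) ^ n := rfl
  rw [h1, h2, conj_pow, map_pow, map_mul, map_mul, map_pow, map_inv, mk_gc, mul_one]
  rfl

theorem sh_pow (j n : ℕ) : sh j ^ n = SemidirectProduct.inr (pr j ^ n) := by
  unfold sh
  rw [← map_pow]

theorem commute_st (j : ℕ) : Commute st (sh j ^ (3 ^ j)) := by
  rw [sh_pow]
  apply Pool.Agent.PowAlt.commute_stab
  rw [act_pr]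
  congr 1
  have h := (bc_commute j).eq
  rw [mul_inv_eq_one, ← h, mul_inv_cancel_right]

theorem not_commute_st {i l : ℕ} (hl : ¬ 3 ∣ l) (hN : 3 ^ i * l ≠ 0) :
    ¬ Commute (st ^ (3 ^ i * l)) (sh (i + 1) ^ (3 ^ i * l)) := by
  intro h
  set N := 3 ^ i * l with hNdef
  rw [sh_pow] at h
  unfold st at h
  rw [← map_pow] at h
  have h1 : Pool.Agent.PowAlt.act {relBS} (pr (i + 1) ^ N) (FreeGroup.of 1 ^ N) =
      FreeGroup.of 1 ^ N := by
    apply SemidirectProduct.inl_injective (φ := Pool.Agent.PowAlt.act {relBS})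
    rw [SemidirectProduct.inl_aut, ← h.eq, map_inv, mul_inv_cancel_right]
  rw [map_pow, act_pr] at h1
  have h2 := pow_left_injective hN h1
  have h3 : bc (i + 1) ^ N * (ba * bc (i + 1) ^ N * ba⁻¹)⁻¹ = 1 :=
    FreeGroup.of_injective h2
  rw [mul_inv_eq_one] at h3
  apply bc_not_commute (i := i) hl
  rw [← hNdef]
  change bc (i + 1) ^ N * ba = ba * bc (i + 1) ^ N
  nth_rewrite 1 [h3]
  rw [inv_mul_cancel_right]

theorem not_uniform : ¬ UniformPowerAlternative G0 := by
  rintro ⟨N, hN, H⟩
  obtain ⟨i, l, hl, hNil⟩ := Nat.exists_eq_pow_mul_and_not_dvd (n := N) (by omega) 3 (by norm_num)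
  have hnc : ¬ Commute (st ^ N) (sh (i + 1) ^ N) := by
    have := not_commute_st (i := i) hl (by rw [← hNil]; omega)
    rwa [← hNil] at this
  rcases H st (sh (i + 1)) with h | ⟨⟨e⟩⟩
  · exact hnc h
  · apply hnc
    let x : Subgroup.closure {st ^ N, sh (i + 1) ^ N} :=
      ⟨st ^ N, Subgroup.subset_closure (by simp)⟩
    let y : Subgroup.closure {st ^ N, sh (i + 1) ^ N} :=
      ⟨sh (i + 1) ^ N, Subgroup.subset_closure (by simp)⟩
    have h1 : Commute x (y ^ (3 ^ (i + 1))) := by
      apply Subtype.ext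
      change st ^ N * (sh (i + 1) ^ N) ^ (3 ^ (i + 1)) = (sh (i + 1) ^ N) ^ (3 ^ (i + 1)) * st ^ N
      rw [← pow_mul, mul_comm N, pow_mul]
      exact ((commute_st (i + 1)).pow_pow N N).eq
    have h2 : Commute (e x) (e y ^ (3 ^ (i + 1))) := by
      rw [← map_pow]
      exact h1.map e
    have h3 : Commute (e y) (e x) :=
      Pool.Agent.PowAlt.commute_of_pow_left (by positivity) h2.symm
    have h4 : y * x = x * y := by
      apply e.injective
      rw [map_mul, map_mul]
      exact h3.eq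
    exact (congrArg Subtype.val h4).symm

/-- **There is a finitely presented torsion-free group which satisfies the power alternative but not
the uniform power alternative.** -/
theorem result : ∃ (G : Type) (_ : Group G), Group.IsFinitelyPresented G ∧
    (∀ (g : G) (n : ℕ), 1 ≤ n → g ^ n = 1 → g = 1) ∧
    PowerAlternative G ∧ ¬ UniformPowerAlternative G :=
  ⟨G0, inferInstance, Pool.Agent.PowAlt.finitelyPresented_GQ _ (Set.finite_singleton _),
    Pool.Agent.PowAlt.torsionFree_GQ _, Pool.Agent.PowAlt.powerAlternative_GQ _, not_uniform⟩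

end Pool.Agent.Results.MP_0fca91_al.NotUniform
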